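import Pool.Agent.L7h32.PI.Stm

/-!
# Project PI, part TRANS: smooth isotopy is transitive and symmetric
-/

set_option autoImplicit false

open Set Filter Topology Metric MeasureTheory
open scoped ContDiff

noncomputable section

namespace Pool.Agent.L7h65.PI

open Pool.Agent.L7h32.AA Pool.Agent.L7h32.PI

/-- a smooth step -/
def bt (t : ℝ) : ℝ := Real.smoothTransition (3 * t - 1)

theorem bt_zero {t : ℝ} (h : t ≤ 1 / 3) : bt t = 0 :=
  Real.smoothTransition.zero_of_nonpos (by linarith)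

theorem bt_one {t : ℝ} (h : 2 / 3 ≤ t) : bt t = 1 :=
  Real.smoothTransition.one_of_one_le (by linarith)

theorem bt_smooth : ContDiff ℝ ∞ bt :=
  Real.smoothTransition.contDiff.comp ((contDiff_const.mul contDiff_id).sub contDiff_const)

variable {E : Type} [NormedAddCommGroup E] [NormedSpace ℝ E] {K U : Set E} {N : E → E}
  {f g h : E → E}

theorem cd_comp {Γ : ℝ → E → E}
    (h1 : ContDiffOn ℝ ∞ (fun p : ℝ × E => Γ p.1 (N p.2)) (univ ×ˢ U)) {a : ℝ → ℝ}
    (ha : ContDiff ℝ ∞ a) :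
    ContDiffOn ℝ ∞ (fun p : ℝ × E => Γ (a p.1) (N p.2)) (univ ×ˢ U) := by
  have h2 : ContDiffOn ℝ ∞ (fun p : ℝ × E => (a p.1, p.2)) (univ ×ˢ U) :=
    ((ha.comp contDiff_fst).prodMk contDiff_snd).contDiffOn
  exact h1.comp h2 fun p hp => ⟨mem_univ _, hp.2⟩

theorem iso_symm (h1 : Iso K U N f g) : Iso K U N g f := by
  obtain ⟨Γ, a1, a2, a3, a4⟩ := h1
  refine ⟨fun t => Γ (1 - t), cd_comp a1 (contDiff_const.sub contDiff_id), fun t => a2 (1 - t),
    ?_, ?_⟩
  · intro x hx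
    show Γ (1 - 0) x = g x
    rw [sub_zero]; exact a4 x hx
  · intro x hx
    show Γ (1 - 1) x = f x
    rw [sub_self]; exact a3 x hx

theorem iso_trans (hR : Ret K U N) (h1 : Iso K U N f g) (h2 : Iso K U N g h) : Iso K U N f h := by
  obtain ⟨Γ, a1, a2, a3, a4⟩ := h1
  obtain ⟨Δ, b1, b2, b3, b4⟩ := h2
  set Φ : ℝ → E → E := fun t => if t < 1 / 2 then Γ (bt (2 * t)) else Δ (bt (2 * t - 1)) with hΦ
  have c1 : ContDiff ℝ ∞ fun t : ℝ => bt (2 * t) :=
    bt_smooth.comp (contDiff_const.mul contDiff_id)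
  have c2 : ContDiff ℝ ∞ fun t : ℝ => bt (2 * t - 1) :=
    bt_smooth.comp ((contDiff_const.mul contDiff_id).sub contDiff_const)
  have e1 : ∀ t : ℝ, t < 2 / 3 → ∀ x ∈ K, Φ t x = Γ (bt (2 * t)) x := by
    intro t ht x hx
    by_cases h' : t < 1 / 2
    · simp only [hΦ, if_pos h']
    · have h'' : 1 / 2 ≤ t := not_lt.1 h'
      simp only [hΦ, if_neg h']
      rw [bt_zero (by linarith), bt_one (by linarith), b3 x hx, a4 x hx]
  have e2 : ∀ t : ℝ, 1 / 3 < t → ∀ x ∈ K, Φ t x = Δ (bt (2 * t - 1)) x := by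
    intro t ht x hx
    by_cases h' : t < 1 / 2
    · simp only [hΦ, if_pos h']
      rw [bt_one (by linarith), bt_zero (by linarith), b3 x hx, a4 x hx]
    · simp only [hΦ, if_neg h']
  refine ⟨Φ, ?_, ?_, ?_, ?_⟩
  · have d1 : ContDiffOn ℝ ∞ (fun p : ℝ × E => Φ p.1 (N p.2)) (Iio (2 / 3) ×ˢ U) := by
      refine ((cd_comp a1 c1).mono (prod_mono (subset_univ _) Subset.rfl)).congr fun p hp => ?_
      exact e1 p.1 hp.1 _ (hR.maps _ hp.2)
    have d2 : ContDiffOn ℝ ∞ (fun p : ℝ × E => Φ p.1 (N p.2)) (Ioi (1 / 3) ×ˢ U) := by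
      refine ((cd_comp b1 c2).mono (prod_mono (subset_univ _) Subset.rfl)).congr fun p hp => ?_
      exact e2 p.1 hp.1 _ (hR.maps _ hp.2)
    have d3 := d1.union_of_isOpen d2 (isOpen_Iio.prod hR.opn) (isOpen_Ioi.prod hR.opn)
    refine d3.mono fun p hp => ?_
    rcases lt_or_ge p.1 (2 / 3) with h' | h'
    · exact Or.inl ⟨h', hp.2⟩
    · exact Or.inr ⟨lt_of_lt_of_le (by norm_num) h', hp.2⟩
  · intro t
    by_cases h' : t < 1 / 2
    · simp only [hΦ, if_pos h']; exact a2 _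
    · simp only [hΦ, if_neg h']; exact b2 _
  · intro x hx
    rw [e1 0 (by norm_num) x hx, bt_zero (by norm_num)]
    exact a3 x hx
  · intro x hx
    rw [e2 1 (by norm_num) x hx, bt_one (by norm_num)]
    exact b4 x hx

theorem s_TRANS : S_TRANS := fun _ _ _ _ _ _ _ _ _ hR =>
  ⟨fun h1 h2 => iso_trans hR h1 h2, fun h1 => iso_symm h1⟩

end Pool.Agent.L7h65.PI
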